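import Pool.Agent.Helper71.BM.Basic

set_option autoImplicit false

namespace Pool.Agent.Helper71.BM

open Finset ErdPos

/-- the second chord does not separate the ends of the first one in the given order -/
def twoNX (p p' : ℕ × ℕ) : Prop :=
  ¬ (min p.1 p.2 < min p'.1 p'.2 ∧ min p'.1 p'.2 < max p.1 p.2 ∧ max p.1 p.2 < max p'.1 p'.2)

/-- chords with left end first and all ends different -/
def twoD (C : Finset (ℕ × ℕ)) : Prop :=
  (∀ p ∈ C, p.1 < p.2) ∧ ∀ p ∈ C, ∀ q ∈ C, p ≠ q →
    p.1 ≠ q.1 ∧ p.1 ≠ q.2 ∧ p.2 ≠ q.1 ∧ p.2 ≠ q.2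

lemma two_ends_perm_cons (p : ℕ × ℕ) (c : List (ℕ × ℕ)) :
    (ends (p :: c)).Perm (p.1 :: p.2 :: ends c) := by
  rw [ends, ends, List.map_cons, List.map_cons, List.cons_append]
  exact List.Perm.cons _ List.perm_middle

lemma two_ends_append (c1 c2 : List (ℕ × ℕ)) :
    (ends (c1 ++ c2)).Perm (ends c1 ++ ends c2) := by
  rw [ends, ends, ends, List.map_append, List.map_append]
  rw [List.perm_iff_count]
  intro a
  simp only [List.count_append]
  omega

lemma two_mem_ends {c : List (ℕ × ℕ)} {x : ℕ} :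
    x ∈ ends c ↔ ∃ p ∈ c, x = p.1 ∨ x = p.2 := by
  rw [ends, List.mem_append, List.mem_map, List.mem_map]
  constructor
  · rintro (⟨p, hp, h⟩ | ⟨p, hp, h⟩)
    · exact ⟨p, hp, Or.inl h.symm⟩
    · exact ⟨p, hp, Or.inr h.symm⟩
  · rintro ⟨p, hp, h | h⟩
    · exact Or.inl ⟨p, hp, h.symm⟩
    · exact Or.inr ⟨p, hp, h.symm⟩

lemma two_ends_ne {c : List (ℕ × ℕ)} (h : (ends c).Nodup) :
    (∀ p ∈ c, ∀ q ∈ c, p.1 ≠ q.2) ∧ ∀ p ∈ c, ∀ q ∈ c, p ≠ q → p.1 ≠ q.1 ∧ p.2 ≠ q.2 := by
  rw [ends, List.nodup_append] at h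
  obtain ⟨h1, h2, h3⟩ := h
  refine ⟨fun p hp q hq => h3 _ (List.mem_map_of_mem hp) _ (List.mem_map_of_mem hq), ?_⟩
  intro p hp q hq hpq
  refine ⟨fun e => hpq (List.inj_on_of_nodup_map h1 hp hq e),
    fun e => hpq (List.inj_on_of_nodup_map h2 hp hq e)⟩

lemma two_nc {μ : List (ℕ × ℕ)} (h : (ends μ).Nodup)
    (hx : ∀ l ∈ μ, ∀ l' ∈ μ, twoNX l l') : NC μ := by
  obtain ⟨h1, h2⟩ := two_ends_ne h
  refine ⟨fun p hp => h1 p hp p hp, ?_⟩
  have hn : μ.Nodup := by
    rw [ends, List.nodup_append] at h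
    exact h.1.of_map
  refine hn.pairwise_of_forall_ne ?_
  intro p hp q hq hpq
  obtain ⟨h3, h4⟩ := h2 p hp q hq hpq
  exact ⟨⟨h3, h1 p hp q hq, (h1 q hq p hp).symm, h4⟩, hx p hp q hq, hx q hq p hp⟩

lemma two_nx_of_nc {μ : List (ℕ × ℕ)} (h : NC μ) : ∀ l ∈ μ, ∀ l' ∈ μ, twoNX l l' := by
  have h2 : μ.Pairwise (fun p q => twoNX p q ∧ twoNX q p) :=
    h.2.imp (fun hpq => ⟨hpq.2.1, hpq.2.2⟩)
  have : Std.Symm (fun p q => twoNX p q ∧ twoNX q p) := ⟨fun _ _ h => ⟨h.2, h.1⟩⟩
  intro l hl l' hl'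
  by_cases hxy : l = l'
  · subst hxy
    rintro ⟨h1, _⟩
    exact lt_irrefl _ h1
  · exact (h2.forall hl hl' hxy).1

lemma two_links_ends (c : List (ℕ × ℕ)) : (ends (links c)).Perm (ends c) := by
  have h1 : (links c).map Prod.fst = c.map Prod.snd := by
    apply List.ext_getElem
    · simp [links]
    · intro i hi1 hi2
      simp [links]
  have h2 : (links c).map Prod.snd = (c.rotate 1).map Prod.fst := by
    apply List.ext_getElem
    · simp [links]
    · intro i hi1 hi2
      simp [links]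
  rw [ends, ends, h1, h2]
  exact (List.perm_append_comm).trans
    (((List.rotate_perm c 1).map Prod.fst).append_right _)

lemma two_mem_links {c : List (ℕ × ℕ)} {l : ℕ × ℕ} (h : l ∈ links c) :
    l.1 ∈ ends c ∧ l.2 ∈ ends c := by
  have hp := two_links_ends c
  exact ⟨hp.mem_iff.1 (two_mem_ends.2 ⟨l, h, Or.inl rfl⟩),
    hp.mem_iff.1 (two_mem_ends.2 ⟨l, h, Or.inr rfl⟩)⟩

/-- assembling the two sequences -/
lemma two_asm {c1 c2 : List (ℕ × ℕ)} (h1 : (ends c1).Nodup) (h2 : (ends c2).Nodup)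
    (hd : ∀ x ∈ ends c1, ∀ y ∈ ends c2, x ≠ y)
    (hx1 : ∀ l ∈ links c1, ∀ l' ∈ links c1, twoNX l l')
    (hx2 : ∀ l ∈ links c2, ∀ l' ∈ links c2, twoNX l l')
    (hx : ∀ l ∈ links c1, ∀ l' ∈ links c2, twoNX l l' ∧ twoNX l' l) :
    (ends (c1 ++ c2)).Nodup ∧ NC (links c1 ++ links c2) := by
  have hn : (ends c1 ++ ends c2).Nodup := by
    rw [List.nodup_append]
    exact ⟨h1, h2, fun x hx y hy => hd x hx y hy⟩
  refine ⟨(two_ends_append c1 c2).nodup_iff.2 hn, two_nc ?_ ?_⟩
  · refine ((two_ends_append _ _).trans ?_).nodup_iff.2 hn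
    exact (two_links_ends c1).append (two_links_ends c2)
  · intro l hl l' hl'
    rcases List.mem_append.1 hl with hl | hl <;> rcases List.mem_append.1 hl' with hl' | hl'
    · exact hx1 l hl l' hl'
    · exact (hx l hl l' hl').1
    · exact (hx l' hl' l hl).2
    · exact hx2 l hl l' hl'

/-- normalisation -/
lemma two_fin {c : List (ℕ × ℕ)} (h : (ends c).Nodup) :
    ∃ C : Finset (ℕ × ℕ), twoD C ∧ C.card = c.length ∧ ∀ p ∈ C, p ∈ c ∨ p.swap ∈ c := by
  obtain ⟨h1, h2⟩ := two_ends_ne h
  have hc : c.Nodup := by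
    rw [ends, List.nodup_append] at h
    exact h.1.of_map
  set f : ℕ × ℕ → ℕ × ℕ := fun p => (min p.1 p.2, max p.1 p.2) with hf
  have hall : ∀ p ∈ c, ∀ q ∈ c, p ≠ q → (f p).1 ≠ (f q).1 ∧ (f p).1 ≠ (f q).2 ∧
      (f p).2 ≠ (f q).1 ∧ (f p).2 ≠ (f q).2 := by
    intro p hp q hq hpq
    have e1 := h1 p hp q hq
    have e2 := h1 q hq p hp
    obtain ⟨e3, e4⟩ := h2 p hp q hq hpq
    simp only [hf]
    omega
  have hinj : Set.InjOn f (c.toFinset : Set (ℕ × ℕ)) := by
    intro p hp q hq hpq
    by_contra hne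
    have := (hall p (by simpa using hp) q (by simpa using hq) hne).1
    exact this (congrArg Prod.fst hpq)
  refine ⟨c.toFinset.image f, ⟨?_, ?_⟩, ?_, ?_⟩
  · intro p hp
    obtain ⟨q, hq, rfl⟩ := Finset.mem_image.1 hp
    have := h1 q (by simpa using hq) q (by simpa using hq)
    simp only [hf]
    omega
  · intro p hp q hq hpq
    obtain ⟨p', hp', rfl⟩ := Finset.mem_image.1 hp
    obtain ⟨q', hq', rfl⟩ := Finset.mem_image.1 hq
    exact hall p' (by simpa using hp') q' (by simpa using hq') (fun e => hpq (by rw [e]))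
  · rw [Finset.card_image_of_injOn hinj, List.toFinset_card_of_nodup hc]
  · intro p hp
    obtain ⟨q, hq, rfl⟩ := Finset.mem_image.1 hp
    have hq' : q ∈ c := by simpa using hq
    rcases le_total q.1 q.2 with h3 | h3
    · left
      have : f q = q := by
        simp only [hf, min_eq_left h3, max_eq_right h3]
      rw [this]
      exact hq'
    · right
      have : (f q).swap = q := by
        simp only [hf, min_eq_right h3, max_eq_left h3, Prod.swap]
      rw [this]
      exact hq'

lemma twoD.mono {C C' : Finset (ℕ × ℕ)} (h : twoD C) (hs : C' ⊆ C) : twoD C' :=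
  ⟨fun p hp => h.1 p (hs hp), fun p hp q hq => h.2 p (hs hp) q (hs hq)⟩

lemma two_sc (hSC : ST_SC) {C : Finset (ℕ × ℕ)} (h : twoD C) (hne : C.Nonempty) :
    ∃ c : List (ℕ × ℕ), c.length = C.card ∧ (ends c).Nodup ∧ (∀ p ∈ c, p ∈ C ∨ p.swap ∈ C) ∧
      NC (links c) := by
  have hn : (ends C.toList).Nodup := by
    rw [ends, List.nodup_append]
    refine ⟨?_, ?_, ?_⟩
    · refine (List.nodup_map_iff_inj_on C.nodup_toList).2 ?_
      intro p hp q hq hpq
      by_contra hne
      exact (h.2 p (by simpa using hp) q (by simpa using hq) hne).1 hpq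
    · refine (List.nodup_map_iff_inj_on C.nodup_toList).2 ?_
      intro p hp q hq hpq
      by_contra hne
      exact (h.2 p (by simpa using hp) q (by simpa using hq) hne).2.2.2 hpq
    · intro x hx y hy
      rw [List.mem_map] at hx hy
      obtain ⟨p, hp, rfl⟩ := hx
      obtain ⟨q, hq, rfl⟩ := hy
      by_cases hpq : p = q
      · subst hpq
        exact ne_of_lt (h.1 p (by simpa using hp))
      · exact (h.2 p (by simpa using hp) q (by simpa using hq) hpq).2.1
  obtain ⟨c, h1, h2, h3, h4⟩ := hSC C.toList (by simpa using hne.ne_empty) hn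
  refine ⟨c, by rw [h1, Finset.length_toList], h2, ?_, h4⟩
  intro p hp
  simpa using h3 p hp

/-- ends of the lists belonging to disjoint groups are different -/
lemma two_dj {C C1 C2 : Finset (ℕ × ℕ)} (h : twoD C) (h1 : C1 ⊆ C) (h2 : C2 ⊆ C)
    (hd : Disjoint C1 C2) {c1 c2 : List (ℕ × ℕ)} (hc1 : ∀ p ∈ c1, p ∈ C1 ∨ p.swap ∈ C1)
    (hc2 : ∀ p ∈ c2, p ∈ C2 ∨ p.swap ∈ C2) : ∀ x ∈ ends c1, ∀ y ∈ ends c2, x ≠ y := by
  intro x hx y hy
  have g : ∀ (D : Finset (ℕ × ℕ)) (c : List (ℕ × ℕ)), (∀ p ∈ c, p ∈ D ∨ p.swap ∈ D) →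
      ∀ x ∈ ends c, ∃ p ∈ D, x = p.1 ∨ x = p.2 := by
    intro D c hD x hx
    obtain ⟨p, hp, hxp⟩ := two_mem_ends.1 hx
    rcases hD p hp with h | h
    · exact ⟨p, h, hxp⟩
    · exact ⟨p.swap, h, hxp.symm⟩
  obtain ⟨p, hp, hxp⟩ := g C1 c1 hc1 x hx
  obtain ⟨q, hq, hyq⟩ := g C2 c2 hc2 y hy
  have hpq : p ≠ q := by
    rintro rfl
    exact Finset.disjoint_left.1 hd hp hq
  have := h.2 p (h1 hp) q (h2 hq) hpq
  rcases hxp with rfl | rfl <;> rcases hyq with rfl | rfl
  · exact this.1
  · exact this.2.1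
  · exact this.2.2.1
  · exact this.2.2.2

/-- a threshold with exactly `n` values below it -/
lemma two_thr (S : Finset (ℕ × ℕ)) (f : ℕ × ℕ → ℕ) (hf : ∀ p ∈ S, ∀ q ∈ S, f p = f q → p = q)
    (n : ℕ) (hn : n ≤ S.card) : ∃ x, (S.filter (fun p => f p < x)).card = n := by
  induction n with
  | zero => exact ⟨0, by simp⟩
  | succ n ih =>
    obtain ⟨x, hx⟩ := ih (by omega)
    have hne : (S.filter (fun p => x ≤ f p)).Nonempty := by
      by_contra hemp
      rw [Finset.not_nonempty_iff_eq_empty, Finset.filter_eq_empty_iff] at hemp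
      have : S.filter (fun p => f p < x) = S := by
        rw [Finset.filter_eq_self]
        intro p hp
        have := hemp hp
        omega
      rw [this] at hx
      omega
    obtain ⟨p0, hp0, hmin⟩ := Finset.exists_min_image _ f hne
    rw [Finset.mem_filter] at hp0
    refine ⟨f p0 + 1, ?_⟩
    have e : S.filter (fun p => f p < f p0 + 1) = insert p0 (S.filter (fun p => f p < x)) := by
      ext p
      rw [Finset.mem_insert, Finset.mem_filter, Finset.mem_filter]
      constructor
      · rintro ⟨hp, hlt⟩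
        by_cases hpx : f p < x
        · exact Or.inr ⟨hp, hpx⟩
        · left
          have := hmin p (Finset.mem_filter.2 ⟨hp, by omega⟩)
          exact hf p hp p0 hp0.1 (by omega)
      · rintro (rfl | ⟨hp, hlt⟩)
        · exact ⟨hp0.1, by omega⟩
        · exact ⟨hp, by omega⟩
    rw [e, Finset.card_insert_of_notMem, hx]
    rw [Finset.mem_filter]
    rintro ⟨_, h⟩
    omega

/-! ### the expanded sequence -/

/-- each composite chord is replaced by two chords -/
def twoE (r : ℕ → ℕ) (c : List (ℕ × ℕ)) : List (ℕ × ℕ) :=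
  c.flatMap (fun p => [(p.1, r p.1), (r p.2, p.2)])

lemma twoE_cons (r : ℕ → ℕ) (p : ℕ × ℕ) (c : List (ℕ × ℕ)) :
    twoE r (p :: c) = (p.1, r p.1) :: (r p.2, p.2) :: twoE r c := rfl

/-- links of a sequence followed by `q` -/
def twoPl (c : List (ℕ × ℕ)) (q : ℕ × ℕ) : List (ℕ × ℕ) :=
  List.zipWith (fun p p' => (p.2, p'.1)) c (c.tail ++ [q])

lemma two_links_cons (p : ℕ × ℕ) (c : List (ℕ × ℕ)) : links (p :: c) = twoPl (p :: c) p := by
  rw [links, twoPl]
  congr 1
  simp [List.rotate_cons_succ]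

lemma two_pl_cons (p p' : ℕ × ℕ) (c : List (ℕ × ℕ)) (q : ℕ × ℕ) :
    twoPl (p :: p' :: c) q = (p.2, p'.1) :: twoPl (p' :: c) q := rfl

lemma two_pl_E (r : ℕ → ℕ) (c : List (ℕ × ℕ)) : ∀ (p q q' : ℕ × ℕ), q.1 = q'.1 →
    ∀ x ∈ twoPl (twoE r (p :: c)) q',
      (∃ p' ∈ p :: c, x = (r p'.1, r p'.2)) ∨ x ∈ twoPl (p :: c) q := by
  induction c with
  | nil =>
    intro p q q' hq x hx
    have e : twoPl (twoE r [p]) q' = [(r p.1, r p.2), (p.2, q'.1)] := rfl
    have e' : twoPl [p] q = [(p.2, q.1)] := rfl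
    rw [e, List.mem_cons, List.mem_singleton] at hx
    rcases hx with hx | hx
    · left
      exact ⟨p, by simp, hx⟩
    · right
      rw [e', List.mem_singleton, hx, hq]
  | cons p2 c ih =>
    intro p q q' hq x hx
    have e : twoPl (twoE r (p :: p2 :: c)) q' =
        (r p.1, r p.2) :: (p.2, p2.1) :: twoPl (twoE r (p2 :: c)) q' := rfl
    rw [e, List.mem_cons, List.mem_cons] at hx
    rcases hx with hx | hx | hx
    · left
      exact ⟨p, by simp, hx⟩
    · right
      rw [two_pl_cons, hx]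
      exact List.mem_cons_self
    · rcases ih p2 q q' hq x hx with ⟨p', hp', h⟩ | h
      · left
        exact ⟨p', List.mem_cons_of_mem _ hp', h⟩
      · right
        rw [two_pl_cons]
        exact List.mem_cons_of_mem _ h

lemma two_links_E (r : ℕ → ℕ) (c : List (ℕ × ℕ)) : ∀ x ∈ links (twoE r c),
    (∃ p' ∈ c, x = (r p'.1, r p'.2)) ∨ x ∈ links c := by
  cases c with
  | nil =>
    intro x hx
    simp [twoE, links] at hx
  | cons p c =>
    intro x hx
    rw [two_links_cons]
    rw [twoE_cons, two_links_cons, ← twoE_cons] at hx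
    exact two_pl_E r c p p (p.1, r p.1) rfl x hx

lemma two_ends_E (r : ℕ → ℕ) (c : List (ℕ × ℕ)) :
    (ends (twoE r c)).Perm (ends c ++ (ends c).map r) := by
  induction c with
  | nil => simp [twoE, ends]
  | cons p c ih =>
    rw [twoE_cons]
    have h1 := two_ends_perm_cons (p.1, r p.1) ((r p.2, p.2) :: twoE r c)
    have h2 := two_ends_perm_cons (r p.2, p.2) (twoE r c)
    have h3 := two_ends_perm_cons p c
    have h4 := h3.map r
    rw [List.perm_iff_count] at *
    intro a
    have g1 := h1 a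
    have g2 := h2 a
    have g3 := h3 a
    have g4 := h4 a
    have g5 := ih a
    simp only [List.count_cons, List.map_cons, List.count_append] at *
    omega

/-- two groups, one of them inside an interval -/
lemma two_groups (hSC : ST_SC) {C C1 C2 : Finset (ℕ × ℕ)} (hD : twoD C) (h1 : C1 ⊆ C)
    (h2 : C2 ⊆ C) (hd : Disjoint C1 C2) (hne1 : C1.Nonempty) (hne2 : C2.Nonempty) {u v : ℕ}
    (hin : ∀ p ∈ C2, u ≤ p.1 ∧ p.2 < v)
    (hout : ∀ p ∈ C1, (p.1 < u ∨ v ≤ p.1) ∧ (p.2 < u ∨ v ≤ p.2)) :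
    ∃ c1 c2 : List (ℕ × ℕ), c1.length = C1.card ∧ c2.length = C2.card ∧
      (ends (c1 ++ c2)).Nodup ∧ (∀ p ∈ c1 ++ c2, p ∈ C ∨ p.swap ∈ C) ∧
      NC (links c1 ++ links c2) := by
  obtain ⟨c1, a1, a2, a3, a4⟩ := two_sc hSC (hD.mono h1) hne1
  obtain ⟨c2, b1, b2, b3, b4⟩ := two_sc hSC (hD.mono h2) hne2
  have e1 : ∀ x ∈ ends c1, x < u ∨ v ≤ x := by
    intro x hx
    obtain ⟨p, hp, hxp⟩ := two_mem_ends.1 hx
    rcases a3 p hp with h | h
    · have := hout _ h
      rcases hxp with rfl | rfl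
      · exact this.1
      · exact this.2
    · have := hout _ h
      rcases hxp with rfl | rfl
      · exact this.2
      · exact this.1
  have e2 : ∀ x ∈ ends c2, u ≤ x ∧ x < v := by
    intro x hx
    obtain ⟨p, hp, hxp⟩ := two_mem_ends.1 hx
    rcases b3 p hp with h | h
    · have g1 := hin _ h
      have g2 := hD.1 _ (h2 h)
      rcases hxp with rfl | rfl <;> omega
    · have g1 := hin _ h
      have g2 := hD.1 _ (h2 h)
      simp only [Prod.fst_swap, Prod.snd_swap] at g1 g2
      rcases hxp with rfl | rfl <;> omega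
  obtain ⟨g1, g2⟩ := two_asm a2 b2 (two_dj hD h1 h2 hd a3 b3) (two_nx_of_nc a4)
    (two_nx_of_nc b4) (by
      intro l hl l' hl'
      have f1 := two_mem_links hl
      have f2 := two_mem_links hl'
      have k1 := e1 _ f1.1
      have k2 := e1 _ f1.2
      have k3 := e2 _ f2.1
      have k4 := e2 _ f2.2
      constructor
      · rintro ⟨q1, q2, q3⟩
        omega
      · rintro ⟨q1, q2, q3⟩
        omega)
  refine ⟨c1, c2, a1, b1, g1, ?_, g2⟩
  intro p hp
  rcases List.mem_append.1 hp with hp | hp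
  · rcases a3 p hp with h | h
    · exact Or.inl (h1 h)
    · exact Or.inr (h1 h)
  · rcases b3 p hp with h | h
    · exact Or.inl (h2 h)
    · exact Or.inr (h2 h)

lemma two_sort (n : ℕ) : ∀ (S : Finset (ℕ × ℕ)), (∀ p ∈ S, ∀ q ∈ S, p.2 = q.2 → p = q) →
    S.card = n → ∃ P : ℕ → ℕ × ℕ, (∀ j < n, P j ∈ S) ∧
      ∀ i j, i < j → j < n → (P i).2 < (P j).2 := by
  induction n with
  | zero =>
    intro S _ _
    exact ⟨fun _ => (0, 0), by intro j hj; omega, by intro i j _ hj; omega⟩
  | succ n ih =>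
    intro S hS hc
    have hne : S.Nonempty := by
      rw [← Finset.card_pos]
      omega
    obtain ⟨p0, hp0, hmax⟩ := Finset.exists_max_image S Prod.snd hne
    obtain ⟨P, hP1, hP2⟩ := ih (S.erase p0)
      (fun p hp q hq => hS p (Finset.mem_of_mem_erase hp) q (Finset.mem_of_mem_erase hq))
      (by rw [Finset.card_erase_of_mem hp0, hc]; rfl)
    refine ⟨fun j => if j < n then P j else p0, ?_, ?_⟩
    · intro j hj
      show (if j < n then P j else p0) ∈ S
      split_ifs with h
      · exact Finset.mem_of_mem_erase (hP1 j h)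
      · exact hp0
    · intro i j hij hj
      show (if i < n then P i else p0).2 < (if j < n then P j else p0).2
      rw [if_pos (by omega : i < n)]
      split_ifs with h
      · exact hP2 i j hij h
      · have h1 := hP1 i (by omega)
        have h2 := hmax _ (Finset.mem_of_mem_erase h1)
        refine lt_of_le_of_ne h2 ?_
        intro e
        exact Finset.ne_of_mem_erase h1 (hS _ (Finset.mem_of_mem_erase h1) _ hp0 e)

/-- the expanded sequence of a group of crossing chords -/
lemma two_exp (hSC : ST_SC) {S : Finset (ℕ × ℕ)} (hD : twoD S) {z : ℕ} (hz : S.card = 2 * z)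
    (hz1 : 1 ≤ z) {x u v : ℕ} (hl : ∀ p ∈ S, u ≤ p.1 ∧ p.1 < x) (hr : ∀ p ∈ S, v ≤ p.2)
    (hxv : x ≤ v) : ∃ c : List (ℕ × ℕ), c.length = 2 * z ∧ (ends c).Nodup ∧
      (∀ p ∈ c, p ∈ S ∨ p.swap ∈ S) ∧ (∀ l ∈ links c, ∀ l' ∈ links c, twoNX l l') ∧
      ∀ l ∈ links c, ((u ≤ l.1 ∧ l.1 < x) ∧ (u ≤ l.2 ∧ l.2 < x)) ∨ (v ≤ l.1 ∧ v ≤ l.2) := by
  classical
  have inj1 : ∀ p ∈ S, ∀ q ∈ S, p.1 = q.1 → p = q := by
    intro p hp q hq h
    by_contra hne
    exact (hD.2 p hp q hq hne).1 h
  have inj2 : ∀ p ∈ S, ∀ q ∈ S, p.2 = q.2 → p = q := by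
    intro p hp q hq h
    by_contra hne
    exact (hD.2 p hp q hq hne).2.2.2 h
  obtain ⟨r, hrr⟩ : ∃ r : ℕ → ℕ, ∀ p ∈ S, r p.1 = p.2 := by
    refine ⟨fun a => if h : ∃ p ∈ S, p.1 = a then (Classical.choose h).2 else 0, ?_⟩
    intro p hp
    have h : ∃ q ∈ S, q.1 = p.1 := ⟨p, hp, rfl⟩
    have h2 := Classical.choose_spec h
    show (if h : ∃ q ∈ S, q.1 = p.1 then (Classical.choose h).2 else 0) = p.2
    rw [dif_pos h, inj1 _ h2.1 p hp h2.2]
  obtain ⟨P, hP1, hP2⟩ := two_sort (2 * z) S inj2 hz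
  have hPinj : ∀ i < 2 * z, ∀ j < 2 * z, (P i).1 = (P j).1 → i = j := by
    intro i hi j hj h
    have h1 := inj1 _ (hP1 i hi) _ (hP1 j hj) h
    rcases lt_trichotomy i j with h2 | h2 | h2
    · have := hP2 i j h2 hj
      rw [h1] at this
      exact absurd this (lt_irrefl _)
    · exact h2
    · have := hP2 j i h2 hi
      rw [h1] at this
      exact absurd this (lt_irrefl _)
  set comp : List (ℕ × ℕ) :=
    (List.range z).map (fun i => ((P (2 * i)).1, (P (2 * i + 1)).1)) with hcomp
  have hcne : comp ≠ [] := by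
    rw [hcomp]
    intro h
    rw [List.map_eq_nil_iff, List.range_eq_nil] at h
    omega
  have hcn : (ends comp).Nodup := by
    rw [ends, hcomp, List.map_map, List.map_map, List.nodup_append]
    refine ⟨?_, ?_, ?_⟩
    · refine (List.nodup_map_iff_inj_on List.nodup_range).2 ?_
      intro i hi j hj h
      rw [List.mem_range] at hi hj
      have := hPinj (2 * i) (by omega) (2 * j) (by omega) h
      omega
    · refine (List.nodup_map_iff_inj_on List.nodup_range).2 ?_
      intro i hi j hj h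
      rw [List.mem_range] at hi hj
      have := hPinj (2 * i + 1) (by omega) (2 * j + 1) (by omega) h
      omega
    · intro a ha b hb hab
      rw [List.mem_map] at ha hb
      obtain ⟨i, hi, rfl⟩ := ha
      obtain ⟨j, hj, rfl⟩ := hb
      rw [List.mem_range] at hi hj
      have := hPinj (2 * i) (by omega) (2 * j + 1) (by omega) hab
      omega
  obtain ⟨c, h1, h2, h3, h4⟩ := hSC comp hcne hcn
  have hlen : comp.length = z := by rw [hcomp]; simp
  -- the composite chords
  have h5 : ∀ p ∈ c, ∃ i < z, (p.1 = (P (2 * i)).1 ∧ p.2 = (P (2 * i + 1)).1) ∨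
      (p.1 = (P (2 * i + 1)).1 ∧ p.2 = (P (2 * i)).1) := by
    intro p hp
    rcases h3 p hp with h | h
    · rw [hcomp, List.mem_map] at h
      obtain ⟨i, hi, he⟩ := h
      rw [List.mem_range] at hi
      refine ⟨i, hi, Or.inl ?_⟩
      rw [← he]
      exact ⟨rfl, rfl⟩
    · rw [hcomp, List.mem_map] at h
      obtain ⟨i, hi, he⟩ := h
      rw [List.mem_range] at hi
      refine ⟨i, hi, Or.inr ?_⟩
      have e1 := congrArg Prod.fst he
      have e2 := congrArg Prod.snd he
      exact ⟨e2.symm, e1.symm⟩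
  have h6 : ∀ a ∈ ends c, ∃ j < 2 * z, a = (P j).1 := by
    intro a ha
    obtain ⟨p, hp, hap⟩ := two_mem_ends.1 ha
    obtain ⟨i, hi, h⟩ := h5 p hp
    rcases hap with rfl | rfl <;> rcases h with h | h
    · exact ⟨2 * i, by omega, h.1⟩
    · exact ⟨2 * i + 1, by omega, h.1⟩
    · exact ⟨2 * i + 1, by omega, h.2⟩
    · exact ⟨2 * i, by omega, h.2⟩
  have h7 : ∀ x' ∈ links (twoE r c), (∃ i < z, min x'.1 x'.2 = (P (2 * i)).2 ∧
      max x'.1 x'.2 = (P (2 * i + 1)).2) ∨ x' ∈ links c := by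
    intro x' hx'
    rcases two_links_E r c x' hx' with ⟨p, hp, rfl⟩ | h
    · left
      obtain ⟨i, hi, h⟩ := h5 p hp
      have g1 := hrr _ (hP1 (2 * i) (by omega))
      have g2 := hrr _ (hP1 (2 * i + 1) (by omega))
      have g3 := hP2 (2 * i) (2 * i + 1) (by omega) (by omega)
      refine ⟨i, hi, ?_⟩
      rcases h with h | h
      · show min (r p.1) (r p.2) = _ ∧ max (r p.1) (r p.2) = _
        rw [h.1, h.2, g1, g2]
        omega
      · show min (r p.1) (r p.2) = _ ∧ max (r p.1) (r p.2) = _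
        rw [h.1, h.2, g1, g2]
        omega
    · exact Or.inr h
  have h8 : ∀ l ∈ links c, (u ≤ l.1 ∧ l.1 < x) ∧ (u ≤ l.2 ∧ l.2 < x) := by
    intro l hl'
    obtain ⟨g1, g2⟩ := two_mem_links hl'
    obtain ⟨i, hi, e1⟩ := h6 _ g1
    obtain ⟨j, hj, e2⟩ := h6 _ g2
    rw [e1, e2]
    exact ⟨hl _ (hP1 i hi), hl _ (hP1 j hj)⟩
  have hlenE : (twoE r c).length = 2 * c.length := by
    clear h1 h2 h3 h4 h5 h6 h7 h8
    induction c with
    | nil => rfl
    | cons p c ih =>
      rw [twoE_cons, List.length_cons, List.length_cons, ih, List.length_cons]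
      omega
  refine ⟨twoE r c, by rw [hlenE, h1, hlen], ?_, ?_, ?_, ?_⟩
  · rw [(two_ends_E r c).nodup_iff, List.nodup_append]
    refine ⟨h2, ?_, ?_⟩
    · refine (List.nodup_map_iff_inj_on h2).2 ?_
      intro a ha b hb hab
      obtain ⟨i, hi, rfl⟩ := h6 a ha
      obtain ⟨j, hj, rfl⟩ := h6 b hb
      rw [hrr _ (hP1 i hi), hrr _ (hP1 j hj)] at hab
      rw [inj2 _ (hP1 i hi) _ (hP1 j hj) hab]
    · intro a ha b hb hab
      rw [List.mem_map] at hb
      obtain ⟨b', hb', rfl⟩ := hb
      obtain ⟨i, hi, rfl⟩ := h6 a ha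
      obtain ⟨j, hj, rfl⟩ := h6 b' hb'
      rw [hrr _ (hP1 j hj)] at hab
      have g1 := (hl _ (hP1 i hi)).2
      have g2 := hr _ (hP1 j hj)
      omega
  · intro p hp
    rw [twoE, List.mem_flatMap] at hp
    obtain ⟨p', hp', h⟩ := hp
    rw [List.mem_cons, List.mem_singleton] at h
    rcases h with rfl | rfl
    · left
      obtain ⟨i, hi, e⟩ := h6 p'.1 (two_mem_ends.2 ⟨p', hp', Or.inl rfl⟩)
      rw [e, hrr _ (hP1 i hi)]
      exact hP1 i hi
    · right
      obtain ⟨i, hi, e⟩ := h6 p'.2 (two_mem_ends.2 ⟨p', hp', Or.inr rfl⟩)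
      rw [e, hrr _ (hP1 i hi)]
      exact hP1 i hi
  · intro l hl1 l' hl1'
    rcases h7 l hl1 with ⟨i, hi, a1, a2⟩ | ha <;> rcases h7 l' hl1' with ⟨j, hj, b1, b2⟩ | hb
    · rintro ⟨q1, q2, q3⟩
      rcases lt_trichotomy i j with h | h | h
      · have := hP2 (2 * i + 1) (2 * j) (by omega) (by omega)
        omega
      · subst h
        omega
      · have := hP2 (2 * j) (2 * i) (by omega) (by omega)
        omega
    · rintro ⟨q1, q2, q3⟩
      have g1 := hr _ (hP1 (2 * i) (by omega))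
      have g2 := h8 l' hb
      omega
    · rintro ⟨q1, q2, q3⟩
      have g1 := hr _ (hP1 (2 * j) (by omega))
      have g2 := h8 l ha
      omega
    · exact two_nx_of_nc h4 l ha l' hb
  · intro l hl1
    rcases h7 l hl1 with ⟨i, hi, a1, a2⟩ | ha
    · right
      have g1 := hr _ (hP1 (2 * i) (by omega))
      have g2 : min l.1 l.2 ≤ l.1 := min_le_left _ _
      have g3 : min l.1 l.2 ≤ l.2 := min_le_right _ _
      omega
    · left
      exact h8 l ha

theorem st_TWO (hSC : ST_SC) : ST_TWO := by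
  classical
  intro m c hm hlen hnd
  obtain ⟨C, hD, hcard, hmem⟩ := two_fin hnd
  have hcl : ∀ p : ℕ × ℕ, (p ∈ C ∨ p.swap ∈ C) → (p ∈ c ∨ p.swap ∈ c) := by
    rintro p (h | h)
    · exact hmem p h
    · have := hmem _ h
      rw [Prod.swap_swap] at this
      exact this.symm
  have inj1 : ∀ p ∈ C, ∀ q ∈ C, p.1 = q.1 → p = q := by
    intro p hp q hq h
    by_contra hne
    exact (hD.2 p hp q hq hne).1 h
  have inj2 : ∀ p ∈ C, ∀ q ∈ C, p.2 = q.2 → p = q := by
    intro p hp q hq h
    by_contra hne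
    exact (hD.2 p hp q hq hne).2.2.2 h
  suffices H : ∃ c1 c2 : List (ℕ × ℕ), m ≤ c1.length ∧ m ≤ c2.length ∧
      (ends (c1 ++ c2)).Nodup ∧ (∀ p ∈ c1 ++ c2, p ∈ C ∨ p.swap ∈ C) ∧
      NC (links c1 ++ links c2) by
    obtain ⟨c1, c2, g1, g2, g3, g4, g5⟩ := H
    exact ⟨c1, c2, g1, g2, g3, fun p hp => hcl p (g4 p hp), g5⟩
  obtain ⟨x, hx⟩ := two_thr C Prod.snd inj2 m (by omega)
  by_cases hR : m ≤ (C.filter (fun p => x ≤ p.1)).card
  · obtain ⟨c1, c2, g1, g2, g3, g4, g5⟩ := two_groups hSC hD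
      (Finset.filter_subset (fun p => x ≤ p.1) C) (Finset.filter_subset (fun p => p.2 < x) C)
      (by
        rw [Finset.disjoint_left]
        intro p hp hp'
        rw [Finset.mem_filter] at hp hp'
        have := hD.1 p hp.1
        omega)
      (Finset.card_pos.1 (by omega)) (Finset.card_pos.1 (by omega)) (u := 0) (v := x)
      (by
        intro p hp
        rw [Finset.mem_filter] at hp
        exact ⟨Nat.zero_le _, hp.2⟩)
      (by
        intro p hp
        rw [Finset.mem_filter] at hp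
        have := hD.1 p hp.1
        omega)
    exact ⟨c1, c2, by omega, by omega, g3, g4, g5⟩
  · push Not at hR
    set X := C.filter (fun p => p.1 < x ∧ x ≤ p.2) with hX
    have hXc : 4 * m ≤ X.card := by
      have hsub : C ⊆ C.filter (fun p => p.2 < x) ∪ C.filter (fun p => x ≤ p.1) ∪ X := by
        intro p hp
        rw [Finset.mem_union, Finset.mem_union, hX, Finset.mem_filter, Finset.mem_filter,
          Finset.mem_filter]
        have : p.2 < x ∨ x ≤ p.1 ∨ (p.1 < x ∧ x ≤ p.2) := by omega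
        tauto
      have g1 := Finset.card_le_card hsub
      have g2 := Finset.card_union_le (C.filter (fun p => p.2 < x) ∪ C.filter (fun p => x ≤ p.1)) X
      have g3 := Finset.card_union_le (C.filter (fun p => p.2 < x)) (C.filter (fun p => x ≤ p.1))
      omega
    obtain ⟨Y, hYX, hYc⟩ := Finset.exists_subset_card_eq hXc
    have hYC : Y ⊆ C := fun p hp => (Finset.mem_filter.1 (hYX hp)).1
    have hYx : ∀ p ∈ Y, p.1 < x ∧ x ≤ p.2 := fun p hp => (Finset.mem_filter.1 (hYX hp)).2
    obtain ⟨u, hu⟩ := two_thr Y Prod.fst (fun p hp q hq => inj1 p (hYC hp) q (hYC hq)) (2 * m)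
      (by omega)
    obtain ⟨v, hv⟩ := two_thr Y Prod.snd (fun p hp q hq => inj2 p (hYC hp) q (hYC hq)) (2 * m)
      (by omega)
    have hu' : (Y.filter (fun p => p.1 < u)).card + (Y.filter (fun p => ¬ p.1 < u)).card =
      Y.card := Finset.card_filter_add_card_filter_not _
    have hv' : (Y.filter (fun p => p.2 < v)).card + (Y.filter (fun p => ¬ p.2 < v)).card =
      Y.card := Finset.card_filter_add_card_filter_not _
    -- the four classes
    set A := Y.filter (fun p => p.1 < u ∧ ¬ p.2 < v) with hA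
    set B := Y.filter (fun p => p.1 < u ∧ p.2 < v) with hB
    set E := Y.filter (fun p => ¬ p.1 < u ∧ p.2 < v) with hE
    set D := Y.filter (fun p => ¬ p.1 < u ∧ ¬ p.2 < v) with hDD
    have s1 : B.card + A.card = 2 * m := by
      have := Finset.card_filter_add_card_filter_not (s := Y.filter (fun p => p.1 < u))
        (fun p => p.2 < v)
      rw [Finset.filter_filter, Finset.filter_filter, hu] at this
      exact this
    have s2 : E.card + D.card = 2 * m := by
      have := Finset.card_filter_add_card_filter_not (s := Y.filter (fun p => ¬ p.1 < u))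
        (fun p => p.2 < v)
      rw [Finset.filter_filter, Finset.filter_filter] at this
      rw [hE, hDD]
      omega
    have s3 : B.card + E.card = 2 * m := by
      have := Finset.card_filter_add_card_filter_not (s := Y.filter (fun p => p.2 < v))
        (fun p => p.1 < u)
      rw [Finset.filter_filter, Finset.filter_filter, hv] at this
      have e1 : B = Y.filter (fun p => p.2 < v ∧ p.1 < u) := by
        rw [hB]
        exact Finset.filter_congr (fun p _ => and_comm)
      have e2 : E = Y.filter (fun p => p.2 < v ∧ ¬ p.1 < u) := by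
        rw [hE]
        exact Finset.filter_congr (fun p _ => and_comm)
      rw [e1, e2]
      exact this
    by_cases hAm : m ≤ A.card
    · have hAC : A ⊆ C := (Finset.filter_subset _ _).trans hYC
      have hEC : E ⊆ C := (Finset.filter_subset _ _).trans hYC
      obtain ⟨c1, c2, g1, g2, g3, g4, g5⟩ := two_groups hSC hD hAC hEC
        (by
          rw [Finset.disjoint_left]
          intro p hp hp'
          rw [hA, Finset.mem_filter] at hp
          rw [hE, Finset.mem_filter] at hp'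
          exact hp'.2.1 hp.2.1)
        (Finset.card_pos.1 (by omega)) (Finset.card_pos.1 (by omega)) (u := u) (v := v)
        (by
          intro p hp
          rw [hE, Finset.mem_filter] at hp
          omega)
        (by
          intro p hp
          rw [hA, Finset.mem_filter] at hp
          omega)
      exact ⟨c1, c2, by omega, by omega, g3, g4, g5⟩
    · push Not at hAm
      have hDc : 2 * ((m + 1) / 2) ≤ D.card := by omega
      obtain ⟨S, hSD, hSc⟩ := Finset.exists_subset_card_eq hDc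
      have hSC' : S ⊆ C := fun p hp => hYC (Finset.mem_of_mem_filter p (hSD hp))
      have hBC : B ⊆ C := (Finset.filter_subset _ _).trans hYC
      have hBne : B.Nonempty := Finset.card_pos.1 (by omega)
      obtain ⟨c1, a1, a2, a3, a4⟩ := two_sc hSC (hD.mono hBC) hBne
      have hux : u ≤ x ∧ x ≤ v := by
        constructor
        · have hDne : D.Nonempty := Finset.card_pos.1 (by omega)
          obtain ⟨p, hp⟩ := hDne
          rw [hDD, Finset.mem_filter] at hp
          have := hYx p hp.1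
          omega
        · obtain ⟨p, hp⟩ := hBne
          rw [hB, Finset.mem_filter] at hp
          have := hYx p hp.1
          omega
      obtain ⟨c2, b1, b2, b3, b4, b5⟩ := two_exp hSC (hD.mono hSC') hSc (by omega)
        (x := x) (u := u) (v := v)
        (by
          intro p hp
          have h := hSD hp
          rw [hDD, Finset.mem_filter] at h
          have := hYx p h.1
          omega)
        (by
          intro p hp
          have h := hSD hp
          rw [hDD, Finset.mem_filter] at h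
          omega) hux.2
      have e1 : ∀ y ∈ ends c1, y < u ∨ (x ≤ y ∧ y < v) := by
        intro y hy
        obtain ⟨p, hp, hxp⟩ := two_mem_ends.1 hy
        rcases a3 p hp with h | h
        · rw [hB, Finset.mem_filter] at h
          have := hYx p h.1
          rcases hxp with rfl | rfl <;> omega
        · rw [hB, Finset.mem_filter] at h
          have := hYx _ h.1
          simp only [Prod.fst_swap, Prod.snd_swap] at this h
          rcases hxp with rfl | rfl <;> omega
      have hdj : Disjoint B S := by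
        rw [Finset.disjoint_left]
        intro p hp hp'
        have h := hSD hp'
        rw [hB, Finset.mem_filter] at hp
        rw [hDD, Finset.mem_filter] at h
        exact h.2.1 hp.2.1
      obtain ⟨g1, g2⟩ := two_asm a2 b2 (two_dj hD hBC hSC' hdj a3 b3) (two_nx_of_nc a4) b4 (by
        intro l hl l' hl'
        have f1 := two_mem_links hl
        have k1 := e1 _ f1.1
        have k2 := e1 _ f1.2
        have k3 := b5 _ hl'
        constructor
        · rintro ⟨q1, q2, q3⟩
          omega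
        · rintro ⟨q1, q2, q3⟩
          omega)
      refine ⟨c1, c2, by omega, by omega, g1, ?_, g2⟩
      intro p hp
      rcases List.mem_append.1 hp with hp | hp
      · rcases a3 p hp with h | h
        · exact Or.inl (hBC h)
        · exact Or.inr (hBC h)
      · rcases b3 p hp with h | h
        · exact Or.inl (hSC' h)
        · exact Or.inr (hSC' h)

end Pool.Agent.Helper71.BM
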